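import Pool.Agent.Q130.SF.Fam

/-!
# Smooth taming forms are nearly taming
-/

set_option autoImplicit false

open Set Filter Topology Metric Function MeasureTheory
open scoped Manifold ContDiff

noncomputable section

namespace Pool.Agent.U896.NF

open Pool.Agent.Y501.SY

variable {d : ℕ} {X : Type} [TopologicalSpace X] [ChartedSpace (E d) X] [IsManifold (𝓡 d) ∞ X]

theorem unif2_of_tames {σ : Form d X 2} (hσ : IsSmooth σ) {J : End d X} (hJ : IsAlmostComplex J)
    (x : X) (ht : TamesAt σ J x) : ∃ c ρ : ℝ, 0 < c ∧ 0 < ρ ∧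
      ∀ q ∈ ball (chartAt (E d) x x) ρ, ∀ y ∈ ball (chartAt (E d) x x) ρ, ∀ v : E d,
        c * ‖v‖ ^ 2 ≤ pb (chartAt (E d) x).symm σ q ![v, inChart J x y v] := by
  obtain ⟨p₀, hp₀⟩ : ∃ p₀, p₀ = chartAt (E d) x x := ⟨_, rfl⟩
  have hpt : p₀ ∈ (chartAt (E d) x).target := by rw [hp₀]; exact mem_chart_target (E d) x
  have hx' : ∀ v : E d, v ≠ 0 → 0 < Pool.Agent.Y455.SY.Q σ J x p₀ v := by
    rw [← Pool.Agent.Y455.SY.tames_iff σ J x hpt, hp₀,
      (chartAt (E d) x).left_inv (mem_chart_source (E d) x)]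
    exact ht
  rw [← hp₀]
  obtain ⟨G, hG⟩ : ∃ G : E d × E d → E d → ℝ, ∀ z v, G z v =
      pb (chartAt (E d) x).symm σ z.1 ![v, inChart J x z.2 v] := ⟨_, fun _ _ => rfl⟩
  have hGs : ∀ z v (s : ℝ), G z (s • v) = s ^ 2 * G z v := by
    intro z v s
    rw [hG, hG]
    have h1 : (![s • v, inChart J x z.2 (s • v)] : Fin 2 → E d) =
        fun i => (fun _ : Fin 2 => s) i • (![v, inChart J x z.2 v] : Fin 2 → E d) i := by
      funext i
      fin_cases i
      · rfl
      · exact map_smul _ _ _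
    rw [h1]
    have h2 := ((pb (chartAt (E d) x).symm σ z.1).toContinuousMultilinearMap).map_smul_univ
      (fun _ : Fin 2 => s) (![v, inChart J x z.2 v] : Fin 2 → E d)
    rw [Fin.prod_univ_two] at h2
    refine h2.trans ?_
    rw [smul_eq_mul, sq]
    rfl
  have hGc : ∀ v : E d, ContinuousAt (fun q : (E d × E d) × E d => G q.1 q.2) ((p₀, p₀), v) := by
    intro v
    have h1 : ContinuousAt (pb (chartAt (E d) x).symm σ) p₀ :=
      ((hσ _ _ (chartAt (E d) x).open_target (contMDiffOn_chart_symm)).continuousOn).continuousAt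
        ((chartAt (E d) x).open_target.mem_nhds hpt)
    have h2 : ContinuousAt (inChart J x) p₀ :=
      (hJ.2 x).continuousAt ((chartAt (E d) x).open_target.mem_nhds hpt)
    have h3 : ContinuousAt (fun q : (E d × E d) × E d => pb (chartAt (E d) x).symm σ q.1.1)
        ((p₀, p₀), v) :=
      ContinuousAt.comp (g := pb (chartAt (E d) x).symm σ)
        (f := fun q : (E d × E d) × E d => q.1.1) (x := ((p₀, p₀), v)) h1
        (continuous_fst.comp continuous_fst).continuousAt
    have h4 : ContinuousAt (fun q : (E d × E d) × E d => inChart J x q.1.2) ((p₀, p₀), v) :=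
      ContinuousAt.comp (g := inChart J x)
        (f := fun q : (E d × E d) × E d => q.1.2) (x := ((p₀, p₀), v)) h2
        (continuous_snd.comp continuous_fst).continuousAt
    have h5 : ContinuousAt (fun q : (E d × E d) × E d => inChart J x q.1.2 q.2) ((p₀, p₀), v) :=
      h4.clm_apply continuousAt_snd
    have h6 : ContinuousAt (fun q : (E d × E d) × E d =>
        (![q.2, inChart J x q.1.2 q.2] : Fin 2 → E d)) ((p₀, p₀), v) := by
      rw [continuousAt_pi]
      intro i
      fin_cases i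
      · exact continuousAt_snd
      · exact h5
    have h7 := h3.eval h6
    have h8 : (fun q : (E d × E d) × E d => G q.1 q.2) = fun q =>
        pb (chartAt (E d) x).symm σ q.1.1 ![q.2, inChart J x q.1.2 q.2] :=
      funext fun q => hG _ _
    rw [h8]
    exact h7
  have key : ∃ c : ℝ, 0 < c ∧ ∀ᶠ z in 𝓝 (p₀, p₀), ∀ v ∈ sphere (0 : E d) 1, c ≤ G z v := by
    refine (isCompact_sphere (0 : E d) 1).induction_on (p := fun S => ∃ c : ℝ, 0 < c ∧
      ∀ᶠ z in 𝓝 (p₀, p₀), ∀ v ∈ S, c ≤ G z v) ?_ ?_ ?_ ?_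
    · exact ⟨1, one_pos, Eventually.of_forall fun p v hv => absurd hv (notMem_empty v)⟩
    · rintro s t hst ⟨c, hc, h⟩
      exact ⟨c, hc, h.mono fun p hp v hv => hp v (hst hv)⟩
    · rintro s t ⟨c, hc, h⟩ ⟨c', hc', h'⟩
      refine ⟨min c c', lt_min hc hc', ?_⟩
      filter_upwards [h, h'] with p hp hp' v hv
      rcases hv with hv | hv
      · exact (min_le_left _ _).trans (hp v hv)
      · exact (min_le_right _ _).trans (hp' v hv)
    · intro v hv
      have hv0 : v ≠ 0 := by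
        rintro rfl
        simp at hv
      have h1 : 0 < G (p₀, p₀) v := by
        rw [hG]
        exact hx' v hv0
      have h2 := (hGc v).eventually (lt_mem_nhds (half_lt_self h1))
      rw [nhds_prod_eq, eventually_prod_iff] at h2
      obtain ⟨pa, hpa, pb', hpb, h3⟩ := h2
      refine ⟨{w | pb' w}, mem_nhdsWithin_of_mem_nhds hpb, _, half_pos h1, ?_⟩
      filter_upwards [hpa] with p hp w hw
      exact (h3 hp hw).le
  obtain ⟨c, hc, h1⟩ := key
  rw [nhds_prod_eq, eventually_prod_iff] at h1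
  obtain ⟨pa, hpa, pb', hpb, h2⟩ := h1
  obtain ⟨ρ, hρ, h3⟩ := Metric.eventually_nhds_iff_ball.1 (hpa.and hpb)
  refine ⟨c, ρ, hc, hρ, fun q hq y hy v => ?_⟩
  have h4 : ∀ v ∈ sphere (0 : E d) 1, c ≤ G (q, y) v := h2 (h3 q hq).1 (h3 y hy).2
  rw [← hG (q, y) v]
  by_cases hv : v = 0
  · have h5 := hGs (q, y) v 0
    rw [zero_smul] at h5
    rw [hv, h5, norm_zero]
    simp
  · have hn : 0 < ‖v‖ := norm_pos_iff.2 hv
    have h5 : v = ‖v‖ • (‖v‖⁻¹ • v) := by
      rw [smul_smul, mul_inv_cancel₀ hn.ne', one_smul]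
    have h6 : ‖v‖⁻¹ • v ∈ sphere (0 : E d) 1 := by
      rw [mem_sphere_zero_iff_norm, norm_smul, norm_inv, norm_norm, inv_mul_cancel₀ hn.ne']
    have h7 := h4 _ h6
    have h8 : G (q, y) v = ‖v‖ ^ 2 * G (q, y) (‖v‖⁻¹ • v) := by
      conv_lhs => rw [h5]
      exact hGs _ _ _
    rw [h8, mul_comm]
    exact mul_le_mul_of_nonneg_left h7 (by positivity)

end Pool.Agent.U896.NF
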