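import Pool.Agent.U896.NF.PubNF
import Pool.Agent.U896.NF.N3
import Pool.Agent.U896.NT.FinalNT
import Pool.Agent.U896.EQ.FinalEQ

/-!
# Families of nearly tamed almost complex structures
-/

set_option autoImplicit false

open Set Filter Topology MeasureTheory
open scoped Manifold ContDiff

noncomputable section

namespace Pool.Agent.U896.NFP

open Pool.Agent.Y501
open Pool.Agent.Y501.SYP Pool.Agent.U896.SWP Pool.Agent.U896.SVP
  Pool.Agent.U896.SCP Pool.Agent.U896.MFP Pool.Agent.U896.NTP Pool.Agent.U896.EQP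

section

variable {d : ℕ} {X : Type} [TopologicalSpace X] [ChartedSpace (ES d) X] {P : Type}
  [TopologicalSpace P]

attribute [local instance] cs mf

theorem int_bound (f : SY.E d → (SY.E d) [⋀^Fin 2]→L[ℝ] ℝ) (q : SY.E d) {t M : ℝ} (ht : 0 < t)
    (hM : 0 ≤ M) (h : ∀ x ∈ Metric.ball q t, ‖f x‖ ≤ M) :
    ∫⁻ x in Metric.ball q t, ‖f x‖ₑ ∂(volume : Measure (SY.E d)) ≤
      ENNReal.ofReal (M * (volume (Metric.ball (0 : SY.E d) 1)).toReal * t ^ ((d : ℝ) - 0)) := by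
  obtain ⟨V, hV⟩ : ∃ V : ℝ, V = (volume (Metric.ball (0 : SY.E d) 1)).toReal := ⟨_, rfl⟩
  have hV0 : 0 ≤ V := by rw [hV]; exact ENNReal.toReal_nonneg
  have h5 : ∀ x ∈ Metric.ball q t, ‖f x‖ₑ ≤ ENNReal.ofReal M := by
    intro x hx
    rw [← ofReal_norm_eq_enorm]
    exact ENNReal.ofReal_le_ofReal (h x hx)
  refine (setLIntegral_mono' Metric.isOpen_ball.measurableSet h5).trans (le_of_eq ?_)
  rw [setLIntegral_const, Measure.addHaar_ball_of_pos _ _ ht, finrank_euclideanSpace_fin,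
    ← ENNReal.ofReal_toReal (measure_ball_lt_top (μ := volume) (x := (0 : SY.E d)) (r := 1)).ne,
    ← hV, ← ENNReal.ofReal_mul (by positivity), ← ENNReal.ofReal_mul hM, sub_zero,
    Real.rpow_natCast, ENNReal.toReal_ofReal hV0]
  congr 1
  ring

theorem ball_aux {x q p : SY.E d} {t ρ : ℝ} (h1 : x ∈ Metric.ball q t)
    (h2 : q ∈ Metric.ball p (ρ / 2)) (h3 : t ≤ ρ / 2) : x ∈ Metric.ball p ρ := by
  rw [Metric.mem_ball] at h1 h2 ⊢
  have := dist_triangle x q p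
  linarith

theorem int_zero (f : SY.E d → ENNReal) (q : SY.E d) (t : ℝ)
    (h : ∀ x ∈ Metric.ball q t, f x = 0) :
    ∫⁻ x in Metric.ball q t, f x ∂(volume : Measure (SY.E d)) = 0 := by
  rw [setLIntegral_congr_fun Metric.isOpen_ball.measurableSet h]
  simp

/-- smooth forms have Morrey growth -/
theorem morrey_of_smooth [IsManifold 𝓘(ℝ, ES d) ∞ X] {w : Form (ES d) X 2} (hw : IsSmooth w) :
    MorreyGrowth 0 w := by
  intro z p hp
  have h1 : ContDiffOn ℝ ∞ (SY.pb (d := d) (X := X) (chartAt (SY.E d) z).symm w)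
      (chartAt (SY.E d) z).target :=
    ((smooth_iff w).1 hw) _ _ (chartAt (SY.E d) z).open_target contMDiffOn_chart_symm
  have h2 : ContinuousAt (SY.pb (d := d) (X := X) (chartAt (SY.E d) z).symm w) p :=
    h1.continuousOn.continuousAt ((chartAt (SY.E d) z).open_target.mem_nhds hp)
  obtain ⟨M, hM⟩ : ∃ M, M = ‖SY.pb (d := d) (X := X) (chartAt (SY.E d) z).symm w p‖ + 1 :=
    ⟨_, rfl⟩
  have hM0 : 0 < M := by rw [hM]; positivity
  have h3 : ∀ᶠ q in 𝓝 p, ‖SY.pb (d := d) (X := X) (chartAt (SY.E d) z).symm w q‖ < M :=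
    h2.norm.eventually (gt_mem_nhds (by rw [hM]; linarith))
  obtain ⟨ρ, hρ, h4⟩ := Metric.eventually_nhds_iff_ball.1 h3
  refine ⟨ρ / 2, M * (volume (Metric.ball (0 : SY.E d) 1)).toReal, by positivity,
    fun q hq t ht htr => ?_⟩
  refine int_bound (SY.pb (d := d) (X := X) (chartAt (SY.E d) z).symm w) q ht hM0.le fun x hx => ?_
  exact (h4 x (ball_aux hx hq htr)).le

theorem weaklyPlusD_of [IsManifold 𝓘(ℝ, ES d) ∞ X] {σ₀ ρ : Form (ES d) X 2}
    {α : Form (ES d) X 1} (h1 : IsSmooth α) (h3 : IsD α ρ) : WeaklyPlusD (addF σ₀ ρ) σ₀ α := by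
  intro z g g1 g2 g3 u v
  have h4 := EQ.weak_of_smooth (d := d) (chartAt (SY.E d) z).open_target
    (b := SY.pb (d := d) (X := X) (chartAt (SY.E d) z).symm α)
    (s := SY.pb (d := d) (X := X) (chartAt (SY.E d) z).symm ρ)
    (((smooth_iff α).1 h1) _ _ (chartAt (SY.E d) z).open_target contMDiffOn_chart_symm)
    (fun p hp => ((isD_iff α ρ).1 h3) _ _ (chartAt (SY.E d) z).open_target
      contMDiffOn_chart_symm p hp) g1 g2 g3 u v
  refine Eq.trans ?_ h4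
  refine integral_congr_ae (Eventually.of_forall fun q => ?_)
  have h5 : pb (chartAt (ES d) z).symm (addF σ₀ ρ) q ![u, v] -
      pb (chartAt (ES d) z).symm σ₀ q ![u, v] =
      SY.pb (d := d) (X := X) (chartAt (SY.E d) z).symm ρ q ![u, v] := by
    have h6 : pb (chartAt (ES d) z).symm (addF σ₀ ρ) q ![u, v] =
        pb (chartAt (ES d) z).symm σ₀ q ![u, v] + pb (chartAt (ES d) z).symm ρ q ![u, v] := rfl
    rw [h6, add_sub_cancel_left]
    rfl
  show g q * (pb (chartAt (ES d) z).symm (addF σ₀ ρ) q ![u, v] -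
      pb (chartAt (ES d) z).symm σ₀ q ![u, v]) + _ - _ = _
  rw [h5]
  rfl

/-- a smooth form in the class which tames `J` -/
theorem nearly_of [IsManifold 𝓘(ℝ, ES d) ∞ X] {σ₀ w : Form (ES d) X 2} (hσ₀ : IsSmooth σ₀)
    (hw : IsSmooth w) (hc : Cohomologous w σ₀) {J : End (ES d) X} (hJ : IsAlmostComplex J)
    (ht : ∀ x, TamesAt w J x) : NearlyTamedIn σ₀ J := by
  obtain ⟨α, ρ, h1, h2, h3, rfl⟩ := hc
  refine ⟨0, α, addF σ₀ ρ, le_rfl, one_pos, locint_of h1, locint_of hw,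
    weaklyPlusD_of h1 h3, morrey_of_smooth hw, fun x => ?_⟩
  obtain ⟨c, ρ', hc, hρ, h4⟩ := NF.unif2_of_tames (d := d) (X := X) ((smooth_iff _).1 hw)
    (ac_of J hJ) x (ht x)
  refine ⟨c, ρ' / 2, hc, by positivity, fun δ hδ => ⟨ρ' / 2, by positivity,
    fun y hy t ht0 htr => ?_⟩⟩
  refine le_trans (le_of_eq ?_) bot_le
  refine int_zero (fun q => ENNReal.ofReal (Metric.infDist
    (pb (chartAt (ES d) x).symm (addF σ₀ ρ) q) (TameSet c (inChart J x y)))) y t fun q hq => ?_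
  have h5 : pb (chartAt (ES d) x).symm (addF σ₀ ρ) q ∈ TameSet c (inChart J x y) := by
    intro v
    refine h4 q ?_ y ?_ v
    · exact ball_aux hq hy htr
    · exact Metric.ball_subset_ball (by linarith) hy
  show ENNReal.ofReal (Metric.infDist
    (pb (chartAt (ES d) x).symm (addF σ₀ ρ) q) (TameSet c (inChart J x y))) = 0
  rw [Metric.infDist_zero_of_mem h5, ENNReal.ofReal_zero]

theorem fillingsNF [IsManifold 𝓘(ℝ, ES d) ∞ X] [CompactSpace X] [T2Space X] (hd : 0 < d)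
    [CompactSpace P] [T2Space P] (Q N : Set P) (hQ : IsClosed Q) (hN : IsOpen N) (hQN : Q ⊆ N)
    (r : P → P) (hr : ContinuousOn r N) (hrQ : ∀ p ∈ N, r p ∈ Q) (hrid : ∀ q ∈ Q, r q = q)
    (σ₀ : Form (ES d) X 2) (hσ₀ : IsSmooth σ₀) (hσ₀c : IsClosedForm σ₀)
    (η : P → Form (ES d) X 2) (hη : FamilyInClass σ₀ Q η) :
    (∃ Ω : P → Form (ES d) X 2, FamilyInClass σ₀ univ Ω ∧ (∀ p, NondegForm (Ω p)) ∧
      ∀ q ∈ Q, Ω q = η q) ↔
    (∃ J : P → End (ES d) X, ContinuousACS J ∧ (∀ q ∈ Q, ∀ x, TamesAt (η q) (J q) x) ∧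
      ∀ p, p ∉ Q → NearlyTamedIn σ₀ (J p)) := by
  classical
  constructor
  · rintro ⟨Ω, k1, k2, k3⟩
    obtain ⟨J, j1, j2, j3⟩ := Pool.Agent.Q130.SF.exists_J (d := d) (X := X)
      (Ω := Ω) (fun U φ hU hφ => k1.2 U φ ⟨hU, hφ⟩) k2
    have hJc : ∀ (x₀ : X) (v : ES d), ContinuousOn
        (fun q : P × ES d => inChart (J q.1) x₀ q.2 v) (univ ×ˢ (chartAt (ES d) x₀).target) := by
      intro x₀ v
      have h1 := j2 x₀
      rw [continuousOn_clm_apply] at h1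
      exact h1 v
    have hac : ∀ p, IsAlmostComplex (J p) := fun p =>
      ⟨j1 p, fun x₀ v => (hJc x₀ v).comp (f := fun u : ES d => (p, u)) (by fun_prop)
        fun u hu => ⟨mem_univ _, hu⟩⟩
    refine ⟨J, ⟨hac, hJc⟩, fun q hq x => ?_, fun p _ => ?_⟩
    · rw [← k3 q hq]
      exact j3 q x
    · obtain ⟨h1, -, h2⟩ := k1.1 p (mem_univ p)
      exact nearly_of hσ₀ h1 h2 (hac p) (j3 p)
  · rintro ⟨J, hJ, hηt, hw⟩
    have hex : ∀ p, p ∉ Q → ∃ w : Form (ES d) X 2, IsTamingSymplectic w (J p) ∧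
        Cohomologous w σ₀ := by
      intro p hp
      obtain ⟨a, β, σ, ha, ha1, g1, g2, g3, g4, g5⟩ := hw p hp
      obtain ⟨α, ρ, h1, h2, h3, h4, -⟩ := nearlyTaming hd ha ha1 (J p) (hJ.1 p) σ₀ hσ₀ hσ₀c β σ
        g1 g2 g3 g4 g5
      exact ⟨_, h4, α, ρ, h1, h2, h3, rfl⟩
    choose! w hw1 hw2 using hex
    have hJF : Pool.Agent.Q130.SF.JFam (d := d) (X := X) J := by
      intro x₀
      rw [continuousOn_clm_apply]
      exact fun v => hJ.2 x₀ v
    obtain ⟨Ω, κ, k1, k2, -, k4, k5, k6⟩ := Pool.Agent.Q130.SF.extendS (d := d) (X := X) hQ hN hQN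
      hr hrQ hrid hJF (η := η) (w := w) (fun U φ hU hφ => hη.2 U φ ⟨hU, hφ⟩)
      (fun q hq => (hη.1 q hq).1) hηt (fun p hp => (hw1 p hp).smooth)
      (fun p hp => (hw1 p hp).tames) (fun _ => 0)
    have hC : Convex ℝ {z : Form (ES d) X 2 × ℝ | z.1 ∈ {σ : Form (ES d) X 2 | IsSmooth σ ∧
        IsClosedForm σ ∧ Pool.Agent.Q130.SF.Coh σ σ₀}} := by
      have h1 := Pool.Agent.Q130.SF.convex_class (d := d) (X := X) σ₀
      rintro ⟨z, s⟩ hz ⟨z', s'⟩ hz' a b ha hb hab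
      exact h1 hz hz' ha hb hab
    have hcl := k6 _ hC (fun q hq => hη.1 q hq)
      (fun p hp => ⟨(hw1 p hp).smooth, (hw1 p hp).closed, hw2 p hp⟩)
    refine ⟨Ω, ⟨fun p _ => hcl p, fun U φ hφ => k2 U φ hφ.1 hφ.2⟩, fun p => ?_,
      fun q hq => (k1 q hq).1⟩
    intro x v hv
    by_contra h0
    have h1 := k5 p x v h0
    have h2 : qd (Ω p) (J p) x v = 0 := hv _
    rw [h2] at h1
    exact lt_irrefl _ h1

end

end Pool.Agent.U896.NFP
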