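import Pool.Agent.U896.NT.PubNT
import Pool.Agent.U896.MF.PubMF

/-!
Families of nearly tamed almost complex structures: the definition used in the statement.
-/

set_option autoImplicit false

open Set Filter Topology MeasureTheory
open scoped Manifold ContDiff

noncomputable section

namespace Pool.Agent.U896.NFP

open Pool.Agent.Y501.SYP Pool.Agent.U896.SWP Pool.Agent.U896.SVP Pool.Agent.U896.SCP
  Pool.Agent.U896.NTP

variable {d : ℕ} {X : Type} [TopologicalSpace X] [ChartedSpace (ES d) X]

/-- The almost complex structure `J` is nearly tamed in the class of `σ₀`: there is a measurable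
form `σ = σ₀ + dβ` (in the sense of distributions) with `β` and `σ` locally integrable, of Morrey
growth with an exponent less than one, which nearly tames `J` at all points. -/
def NearlyTamedIn (σ₀ : Form (ES d) X 2) (J : End (ES d) X) : Prop :=
  ∃ (a : ℝ) (β : Form (ES d) X 1) (σ : Form (ES d) X 2), 0 ≤ a ∧ a < 1 ∧ LocInt1 β ∧ LocInt σ ∧
    WeaklyPlusD σ σ₀ β ∧ MorreyGrowth a σ ∧ ∀ x, NearlyTaming σ J x

end Pool.Agent.U896.NFP
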